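import Pool.Agent.Helper78.MG.Goals

/-!
# Packet MG-NPC: problems in NP are decided by games without coins
-/

namespace Pool.Agent.Helper4.MG

open Pool.Agent.Helper81.CC Pool.Agent.Helper51.ZP Pool.Agent.Helper78.DT Pool.Agent.Helper78.MG
open scoped Classical

theorem npc_aux {V : List Bool × List Bool → Bool}
    (hV : PolyTimeComputable (fun z : List Bool × List Bool => pairEnc z.1 z.2)
      Computability.encodeBool V) :
    PolyTime (fun z : List Bool × List Bool × List Bool × List Bool =>
      if V (z.1, z.2.1) = true then 1 else (0 : ℕ)) := by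
  have h1 : PolyTime (fun z : List Bool × List Bool × List Bool × List Bool =>
      V (z.1, z.2.1)) := PT_of_machine hV (by fun_prop) (by fun_prop)
  exact PolyTime.ite h1 (PolyTime.const 1) (PolyTime.const 0)

theorem npc : Pool.Agent.Helper78.MG.NpcStmt := by
  intro c L hL
  obtain ⟨V, p, hV, hL⟩ := hL
  have hV' : PolyTimeComputable (fun z : List Bool × List Bool => pairEnc z.1 z.2)
      Computability.encodeBool V := hV
  have hL' : ∀ x : List Bool, x ∈ L ↔ ∃ y : List Bool, y.length ≤ p.eval x.length ∧
      V (x, y) = true := hL
  have hact : ∀ x u y a : List Bool,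
      (fun z : List Bool × List Bool × List Bool × List Bool =>
      if V (z.1, z.2.1) = true then 1 else (0 : ℕ)) (x, u, y, a) =
        if V (x, u) = true then 1 else 0 := fun _ _ _ _ => rfl
  refine ⟨fun z => if V (z.1, z.2.1) = true then 1 else (0 : ℕ), fun _ => 0, p, 0,
    (npc_aux hV').computable, (PolyTime.const 0).computable, ?_, ?_, ?_⟩
  · intro x u y a h
    rcases Nat.eq_zero_or_pos a.length with h0 | h0
    · rw [h0]; exact Nat.zero_le _
    · have := h 0 h0
      rw [hact] at this
      split_ifs at this <;> omega
  · intro x hx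
    obtain ⟨u, hu1, hu2⟩ := (hL' x).mp hx
    refine ⟨u, hu1, ?_⟩
    have hcount : count ((0 : Polynomial ℕ).eval x.length) (fun r =>
        ∃ y : List Bool, y.length ≤ p.eval x.length ∧
          Wins (fun z => if V (z.1, z.2.1) = true then 1 else (0 : ℕ)) x u y r) = 1 := by
      unfold count
      have hall : ∀ r : Fin ((0 : Polynomial ℕ).eval x.length) → Bool,
          ∃ y : List Bool, y.length ≤ p.eval x.length ∧
          Wins (fun z => if V (z.1, z.2.1) = true then 1 else (0 : ℕ)) x u y r := by
        intro r
        refine ⟨[], Nat.zero_le _, [], ?_, ?_⟩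
        · intro k hk
          exact absurd hk (Nat.not_lt_zero _)
        · rw [hact, if_pos hu2]
      rw [Nat.card_congr (Equiv.subtypeUnivEquiv hall)]
      rw [Polynomial.eval_zero]
      simp
    rw [hcount, Polynomial.eval_zero]
    have : 1 ≤ (Nat.log 2 x.length + 2) ^ c := Nat.one_le_pow _ _ (by omega)
    simpa using this
  · intro x hx u hu
    have hcount : count ((0 : Polynomial ℕ).eval x.length) (fun r =>
        ∃ y : List Bool, y.length ≤ p.eval x.length ∧
          Wins (fun z => if V (z.1, z.2.1) = true then 1 else (0 : ℕ)) x u y r) = 0 := by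
      unfold count
      rw [Nat.card_eq_zero]
      left
      constructor
      rintro ⟨r, y, hy, a, ha1, ha2⟩
      rw [hact] at ha2
      have hVu : V (x, u) = true := by
        by_contra h
        rw [if_neg h] at ha2
        exact absurd ha2 (by norm_num)
      exact hx ((hL' x).mpr ⟨u, hu, hVu⟩)
    rw [hcount]
    simp

end Pool.Agent.Helper4.MG
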